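import Pool.Agent.KS6_61.RW.Geom

/-!
# Convolutions of finitely many measures
-/

set_option autoImplicit false
set_option linter.unusedSectionVars false
open MeasureTheory Filter Topology
open scoped ENNReal NNReal

namespace Pool.Agent.KS6_61.PD

noncomputable section

open Pool.Agent.KS6_61.RW

variable {V : Type*} [NormedAddCommGroup V] [InnerProductSpace ℝ V] [FiniteDimensional ℝ V]
  [MeasurableSpace V] [BorelSpace V]

lemma ex_cv {ι : Type*} [DecidableEq ι] (s : Finset ι) (σ : ι → Measure V)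
    (hσ : ∀ i, IsFiniteMeasure (σ i)) :
    ∃ ρ : Measure V, IsFiniteMeasure ρ ∧ ∀ y, charFun ρ y = ∏ i ∈ s, charFun (σ i) y := by
  induction s using Finset.induction_on with
  | empty => exact ⟨Measure.dirac 0, inferInstance, fun y => by rw [charFun_dirac]; simp⟩
  | insert i s hi ih =>
    obtain ⟨ρ, hρ, h⟩ := ih
    refine ⟨σ i ∗ ρ, inferInstance, fun y => ?_⟩
    rw [charFun_conv, Finset.prod_insert hi, h]

/-- two diffuse factors -/
theorem ex_cv2 {ι : Type*} [DecidableEq ι] (s : Finset ι) (σ : ι → Measure V)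
    (hσ : ∀ i, IsFiniteMeasure (σ i)) {j k : ι} (hj : j ∈ s) (hk : k ∈ s) (hjk : j ≠ k)
    (nj : (Module.finrank ℝ V ≤ 3 ∧ NullSingletonClass (σ j)) ∨ NoHyp (σ j))
    (nk : NullSingletonClass (σ k)) :
    ∃ ρ : Measure V, IsFiniteMeasure ρ ∧ (∀ y, charFun ρ y = ∏ i ∈ s, charFun (σ i) y) ∧
      ρ {ξ | ‖ξ‖ = 1} = 0 := by
  obtain ⟨ρ, hρ, h⟩ := ex_cv ((s.erase j).erase k) σ hσ
  have n2 : NullSingletonClass (σ k ∗ ρ) := by
    rw [Measure.conv_comm]
    exact conv_noAtoms _ _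
  refine ⟨σ j ∗ (σ k ∗ ρ), inferInstance, fun y => ?_, conv_sphere _ _ nj⟩
  rw [charFun_conv, charFun_conv, h, Finset.mul_prod_erase (s.erase j)
    (fun i => charFun (σ i) y) (Finset.mem_erase.2 ⟨hjk.symm, hk⟩),
    Finset.mul_prod_erase s (fun i => charFun (σ i) y) hj]

end

end Pool.Agent.KS6_61.PD
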