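import Pool.Agent.KS6_61.RW.Hilb
import Pool.Agent.KS6_61.PD.Cv

/-!
# Orthogonality of waves to observables without spectrum on the unit sphere
-/

set_option autoImplicit false
set_option linter.unusedSectionVars false
open MeasureTheory Filter Topology
open scoped ENNReal NNReal ComplexConjugate

namespace Pool.Agent.KS6_61.PD

noncomputable section

open Pool.Agent.KS6_61.RW

variable {V : Type*} [NormedAddCommGroup V] [InnerProductSpace ℝ V] [FiniteDimensional ℝ V]
  [MeasurableSpace V] [BorelSpace V] {S : Type*} [MeasurableSpace S]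

/-- a measure preserving action of `V` -/
structure Act (Q : Measure S) (T : V → S → S) : Prop where
  zero : ∀ s, T 0 s = s
  add : ∀ x y s, T (x + y) s = T x (T y s)
  mp : ∀ x, MeasurePreserving (T x) Q Q

/-- `τ` is the spectral measure of `u` -/
def Spm (Q : Measure S) (T : V → S → S) (u : S → ℝ) (τ : Measure V) : Prop :=
  ∀ x, charFun τ x = ((∫ s, u s * u (T x s) ∂Q : ℝ) : ℂ)

variable {Q : Measure S} {T : V → S → S}

lemma Act.comp (A : Act Q T) (x : V) {g : S → ℝ} (mg : Measurable g) :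
    ∫ s, g (T x s) ∂Q = ∫ s, g s ∂Q := by
  have h := integral_map (μ := Q) (A.mp x).measurable.aemeasurable mg.aestronglyMeasurable
  rw [(A.mp x).map_eq] at h
  exact h.symm

lemma Act.cov (A : Act Q T) {u : S → ℝ} (mu : Measurable u) (y z : V) :
    ∫ s, u (T y s) * u (T z s) ∂Q = ∫ s, u s * u (T (z - y) s) ∂Q := by
  have h := A.comp y (g := fun s => u s * u (T (z - y) s)) (mu.mul (mu.comp (A.mp _).measurable))
  rw [← h]
  congr 1
  funext s
  rw [← A.add, sub_add_cancel]

lemma innerC {f g : S → ℂ} (hf : MemLp f 2 Q) (hg : MemLp g 2 Q) :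
    inner ℂ (hf.toLp f) (hg.toLp g) = ∫ s, conj (f s) * g s ∂Q := by
  rw [L2.inner_def]
  refine integral_congr_ae ?_
  filter_upwards [hf.coeFn_toLp, hg.coeFn_toLp] with s h1 h2
  rw [h1, h2]
  simp [mul_comm]

lemma Act.mem (A : Act Q T) {u : S → ℝ} (lu : MemLp u 2 Q) (y : V) :
    MemLp (fun s => ((u (T y s) : ℝ) : ℂ)) 2 Q := by
  have h : MemLp (fun s => u (T y s)) 2 Q := lu.comp_measurePreserving (A.mp y)
  exact h.ofReal

/-- the curve of an observable -/
def crv (A : Act Q T) {u : S → ℝ} (lu : MemLp u 2 Q) (y : V) : Lp ℂ 2 Q :=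
  (A.mem lu y).toLp (fun s => ((u (T y s) : ℝ) : ℂ))

lemma crv_inner (A : Act Q T) {u w : S → ℝ} (lu : MemLp u 2 Q) (lw : MemLp w 2 Q) (y z : V) :
    inner ℂ (crv A lu y) (crv A lw z) = ((∫ s, u (T y s) * w (T z s) ∂Q : ℝ) : ℂ) := by
  unfold crv
  rw [innerC]
  simp only [Complex.conj_ofReal, ← Complex.ofReal_mul]
  exact integral_complex_ofReal

lemma crv_spec (A : Act Q T) {u : S → ℝ} (mu : Measurable u) (lu : MemLp u 2 Q) {τ : Measure V}
    (h : Spm Q T u τ) : SpecH (crv A lu) τ := by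
  intro y z
  rw [crv_inner, A.cov mu, h]

/-- **Orthogonality.** -/
theorem Act.orth (A : Act Q T) {f u : S → ℝ} (mf : Measurable f) (mu : Measurable u)
    (lf : MemLp f 2 Q) (lu : MemLp u 2 Q) {ρ τ : Measure V} [IsFiniteMeasure ρ]
    [IsFiniteMeasure τ] (hρ : ∀ᵐ ξ ∂ρ, ‖ξ‖ = 1) (hτ : τ {ξ | ‖ξ‖ = 1} = 0)
    (hf : Spm Q T f ρ) (hu : Spm Q T u τ) : ∫ s, f s * u s ∂Q = 0 := by
  have h := key (crv_spec A mf lf hf) (crv_spec A mu lu hu) hρ hτ (by
    intro y
    rw [crv_inner, crv_inner]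
    congr 1
    have h1 := A.comp (-y) (g := fun s => f (T y s) * u (T 0 s))
      ((mf.comp (A.mp _).measurable).mul (mu.comp (A.mp _).measurable))
    rw [← h1]
    congr 1
    funext s
    rw [← A.add, ← A.add, add_neg_cancel, zero_add])
  rw [crv_inner] at h
  simp only [A.zero] at h
  exact_mod_cast h

end

end Pool.Agent.KS6_61.PD
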