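import Pool.Agent.KS6_61.PD.Orth

/-!
# Waves on products of weakly mixing systems split
-/

set_option autoImplicit false
set_option linter.unusedSectionVars false
open MeasureTheory Filter Topology
open scoped ENNReal NNReal ComplexConjugate

namespace Pool.Agent.KS6_61.PD

noncomputable section

open Pool.Agent.KS6_61.RW

variable {V : Type*} [NormedAddCommGroup V] [InnerProductSpace ℝ V] [FiniteDimensional ℝ V]
  [MeasurableSpace V] [BorelSpace V] {ι : Type*} [Fintype ι] [DecidableEq ι]
  {S : ι → Type*} [∀ i, MeasurableSpace (S i)] {Q : ∀ i, Measure (S i)}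
  [∀ i, IsProbabilityMeasure (Q i)] {T : ∀ i, V → S i → S i}

/-- the product action -/
def pT (T : ∀ i, V → S i → S i) (x : V) (s : ∀ i, S i) : ∀ i, S i := fun i => T i x (s i)

lemma pT_act (A : ∀ i, Act (Q i) (T i)) : Act (Measure.pi Q) (pT T) := by
  refine ⟨fun s => ?_, fun x y s => ?_, fun x => ?_⟩
  · funext i
    exact (A i).zero _
  · funext i
    exact (A i).add x y _
  · exact measurePreserving_pi Q Q fun i => (A i).mp x

/-- product functions -/
def pu (u : ∀ i, S i → ℝ) (s : ∀ i, S i) : ℝ := ∏ i, u i (s i)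

lemma pu_meas {u : ∀ i, S i → ℝ} (mu : ∀ i, Measurable (u i)) : Measurable (pu u) :=
  Finset.measurable_prod _ fun i _ => (mu i).comp (measurable_pi_apply i)

lemma pu_mem {u : ∀ i, S i → ℝ} (mu : ∀ i, Measurable (u i)) (lu : ∀ i, MemLp (u i) 2 (Q i)) :
    MemLp (pu u) 2 (Measure.pi Q) := by
  rw [memLp_two_iff_integrable_sq (pu_meas mu).aestronglyMeasurable]
  have h := Integrable.fintype_prod_dep (μ := Q) (f := fun i s => u i s ^ 2)
    fun i => (lu i).integrable_sq
  refine h.congr (ae_of_all _ fun s => ?_)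
  show ∏ i, u i (s i) ^ 2 = (∏ i, u i (s i)) ^ 2
  rw [Finset.prod_pow]

lemma pu_int (u : ∀ i, S i → ℝ) : ∫ s, pu u s ∂(Measure.pi Q) = ∏ i, ∫ s, u i s ∂(Q i) :=
  integral_fintype_prod_eq_prod u

lemma pu_mul (u w : ∀ i, S i → ℝ) (s : ∀ i, S i) :
    pu u s * pu w s = pu (fun i t => u i t * w i t) s := by
  unfold pu
  rw [Finset.prod_mul_distrib]

lemma pu_spec {u : ∀ i, S i → ℝ} {σ : ι → Measure V} (h : ∀ i, Spm (Q i) (T i) (u i) (σ i))
    {ρ : Measure V} (hρ : ∀ y, charFun ρ y = ∏ i, charFun (σ i) y) :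
    Spm (Measure.pi Q) (pT T) (pu u) ρ := by
  intro x
  have e : ∀ s, pu u s * pu u (pT T x s) = pu (fun i t => u i t * u i (T i x t)) s := by
    intro s
    unfold pu pT
    rw [Finset.prod_mul_distrib]
  simp only [e]
  rw [hρ, pu_int]
  push_cast
  exact Finset.prod_congr rfl fun i _ => h i x

/-- the conditions on the spectral measures -/
def Good (V : Type*) [NormedAddCommGroup V] [InnerProductSpace ℝ V] [FiniteDimensional ℝ V]
    [MeasurableSpace V] [BorelSpace V] (σ : Measure V) : Prop :=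
  ((Module.finrank ℝ V ≤ 3 ∧ NullSingletonClass σ) ∨ NoHyp σ) ∧ NullSingletonClass σ

/-- all centred observables have good spectral measures -/
def WM {S : Type*} [MeasurableSpace S] (Q : Measure S) (T : V → S → S) : Prop :=
  ∀ u : S → ℝ, Measurable u → MemLp u 2 Q → ∫ s, u s ∂Q = 0 →
    ∃ σ : Measure V, IsFiniteMeasure σ ∧ Spm Q T u σ ∧ Good V σ

/-- functions which depend on the coordinates in `J` -/
def cut (J : Finset ι) (v : ∀ i, S i → ℝ) (i : ι) (s : S i) : ℝ := if i ∈ J then v i s else 1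

lemma pu_cut (J : Finset ι) (v : ∀ i, S i → ℝ) (s : ∀ i, S i) :
    pu (cut J v) s = ∏ i ∈ J, v i (s i) := by
  unfold pu cut
  rw [Finset.prod_ite_mem, Finset.univ_inter]

lemma cut_meas (J : Finset ι) {v : ∀ i, S i → ℝ} (mv : ∀ i, Measurable (v i)) (i : ι) :
    Measurable (cut J v i) := by
  unfold cut
  split_ifs
  · exact mv i
  · exact measurable_const

lemma cut_mem (J : Finset ι) {v : ∀ i, S i → ℝ} (lv : ∀ i, MemLp (v i) 2 (Q i)) (i : ι) :
    MemLp (cut J v i) 2 (Q i) := by
  unfold cut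
  split_ifs
  · exact lv i
  · exact memLp_const _

/-- **Waves are orthogonal to the products with two centred factors.** -/
theorem orthJ (A : ∀ i, Act (Q i) (T i)) (W : ∀ i, WM (Q i) (T i)) {f : (∀ i, S i) → ℝ}
    (mf : Measurable f) (lf : MemLp f 2 (Measure.pi Q)) {ρ : Measure V} [IsFiniteMeasure ρ]
    (hρ : ∀ᵐ ξ ∂ρ, ‖ξ‖ = 1) (hf : Spm (Measure.pi Q) (pT T) f ρ) {v : ∀ i, S i → ℝ}
    (mv : ∀ i, Measurable (v i)) (lv : ∀ i, MemLp (v i) 2 (Q i))
    (v0 : ∀ i, ∫ s, v i s ∂(Q i) = 0) {J : Finset ι} {j k : ι} (hj : j ∈ J) (hk : k ∈ J)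
    (hjk : j ≠ k) : ∫ s, f s * pu (cut J v) s ∂(Measure.pi Q) = 0 := by
  choose σ hσ1 hσ2 hσ3 using fun i => W i (v i) (mv i) (lv i) (v0 i)
  obtain ⟨σ', hs'⟩ : ∃ σ' : ι → Measure V, ∀ i, σ' i = if i ∈ J then σ i else Measure.dirac 0 :=
    ⟨_, fun _ => rfl⟩
  have fin : ∀ i, IsFiniteMeasure (σ' i) := by
    intro i
    rw [hs']
    split_ifs
    · exact hσ1 i
    · infer_instance
  have sp : ∀ i, Spm (Q i) (T i) (cut J v i) (σ' i) := by
    intro i x
    rw [hs']
    unfold cut
    split_ifs
    · exact hσ2 i x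
    · rw [charFun_dirac]
      simp
  have ej : σ' j = σ j := by rw [hs', if_pos hj]
  have ek : σ' k = σ k := by rw [hs', if_pos hk]
  obtain ⟨τ, hτ, c1, c2⟩ := ex_cv2 Finset.univ σ' fin (Finset.mem_univ j) (Finset.mem_univ k) hjk
    (by rw [ej]; exact (hσ3 j).1) (by rw [ek]; exact (hσ3 k).2)
  exact (pT_act A).orth mf (pu_meas (cut_meas J mv)) lf (pu_mem (cut_meas J mv) (cut_mem J lv))
    hρ c2 hf (pu_spec sp c1)

/-- completeness of the products -/
theorem complete {h : (∀ i, S i) → ℝ} (ih : Integrable h (Measure.pi Q))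
    (H : ∀ (J : Finset ι) (v : ∀ i, S i → ℝ), (∀ i, Measurable (v i)) →
      (∀ i, MemLp (v i) 2 (Q i)) → (∀ i, ∫ s, v i s ∂(Q i) = 0) →
      ∫ s, h s * pu (cut J v) s ∂(Measure.pi Q) = 0) : h =ᵐ[Measure.pi Q] 0 := by
  have box : ∀ B : ∀ i, Set (S i), (∀ i, MeasurableSet (B i)) →
      ∫ s in Set.pi Set.univ B, h s ∂(Measure.pi Q) = 0 := by
    intro B mB
    have mS : MeasurableSet (Set.pi Set.univ B) := MeasurableSet.univ_pi mB
    obtain ⟨p, hp⟩ : ∃ p : ι → ℝ, ∀ i, p i = (Q i).real (B i) := ⟨_, fun _ => rfl⟩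
    obtain ⟨v, hv⟩ : ∃ v : ∀ i, S i → ℝ, ∀ i s, v i s = (B i).indicator (fun _ => (1 : ℝ)) s - p i :=
      ⟨fun i s => (B i).indicator (fun _ => (1 : ℝ)) s - p i, fun _ _ => rfl⟩
    have vf : ∀ i, v i = fun s => (B i).indicator (fun _ => (1 : ℝ)) s - p i := fun i =>
      funext (hv i)
    have mi : ∀ i, Measurable ((B i).indicator (fun _ => (1 : ℝ))) := fun i =>
      measurable_const.indicator (mB i)
    have mv : ∀ i, Measurable (v i) := fun i => by
      rw [vf]; exact (mi i).sub_const _
    have li : ∀ i, MemLp ((B i).indicator (fun _ => (1 : ℝ))) 2 (Q i) := fun i =>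
      (memLp_const (1 : ℝ)).indicator (mB i)
    have lv : ∀ i, MemLp (v i) 2 (Q i) := fun i => by
      rw [vf]; exact (li i).sub (memLp_const _)
    have v0 : ∀ i, ∫ s, v i s ∂(Q i) = 0 := fun i => by
      rw [vf, integral_sub ((li i).integrable (by norm_num)) (integrable_const _),
        integral_indicator_const _ (mB i), hp]
      simp
    have e1 : ∀ s : ∀ i, S i, (Set.pi Set.univ B).indicator h s =
        ∑ J ∈ (Finset.univ : Finset ι).powerset, (h s * pu (cut J v) s) *
          ∏ i ∈ Finset.univ \ J, p i := by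
      intro s
      have e2 : ∏ i, (v i (s i) + p i) = (Set.pi Set.univ B).indicator (fun _ => (1 : ℝ)) s := by
        by_cases hs : s ∈ Set.pi Set.univ B
        · rw [Set.indicator_of_mem hs]
          refine Finset.prod_eq_one fun i _ => ?_
          rw [hv, Set.indicator_of_mem (hs i (Set.mem_univ i))]
          ring
        · rw [Set.indicator_of_notMem hs]
          have : ∃ i, s i ∉ B i := by
            by_contra hc
            push Not at hc
            exact hs fun i _ => hc i
          obtain ⟨i, hi⟩ := this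
          refine Finset.prod_eq_zero (Finset.mem_univ i) ?_
          rw [hv, Set.indicator_of_notMem hi]
          ring
      rw [Finset.prod_add] at e2
      have e3 : (Set.pi Set.univ B).indicator h s =
          h s * (Set.pi Set.univ B).indicator (fun _ => (1 : ℝ)) s := by
        by_cases hs : s ∈ Set.pi Set.univ B
        · rw [Set.indicator_of_mem hs, Set.indicator_of_mem hs, mul_one]
        · rw [Set.indicator_of_notMem hs, Set.indicator_of_notMem hs, mul_zero]
      rw [e3, ← e2, Finset.mul_sum]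
      refine Finset.sum_congr rfl fun J _ => ?_
      rw [pu_cut, mul_assoc]
    have bd : ∀ J : Finset ι, ∀ s : ∀ i, S i, |pu (cut J v) s| ≤ 1 := by
      intro J s
      rw [pu_cut, Finset.abs_prod]
      refine Finset.prod_le_one (fun _ _ => abs_nonneg _) fun i _ => ?_
      have p0 : 0 ≤ p i := by rw [hp]; exact measureReal_nonneg
      have p1 : p i ≤ 1 := by rw [hp]; exact measureReal_le_one
      rw [hv]
      by_cases hs : s i ∈ B i
      · rw [Set.indicator_of_mem hs, abs_le]; constructor <;> linarith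
      · rw [Set.indicator_of_notMem hs, abs_le]; constructor <;> linarith
    have iJ : ∀ J : Finset ι, Integrable (fun s => h s * pu (cut J v) s) (Measure.pi Q) := by
      intro J
      refine ih.norm.mono' (ih.aestronglyMeasurable.mul
        (pu_meas (cut_meas J mv)).aestronglyMeasurable) (ae_of_all _ fun s => ?_)
      show ‖h s * pu (cut J v) s‖ ≤ ‖h s‖
      rw [norm_mul]
      have := bd J s
      rw [← Real.norm_eq_abs] at this
      exact mul_le_of_le_one_right (norm_nonneg _) this
    rw [← integral_indicator mS]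
    simp only [e1]
    rw [integral_finsetSum _ fun J _ => (iJ J).mul_const _]
    refine Finset.sum_eq_zero fun J _ => ?_
    rw [integral_mul_const, H J v mv lv v0, zero_mul]
  refine ih.ae_eq_zero_of_forall_setIntegral_eq_zero fun B mB _ => ?_
  refine MeasurableSpace.induction_on_inter (C := fun B _ => ∫ s in B, h s ∂(Measure.pi Q) = 0)
    generateFrom_pi.symm isPiSystem_pi ?_ ?_ ?_ ?_ B mB
  · simp
  · rintro t ⟨B, hB, rfl⟩
    exact box B fun i => hB i (Set.mem_univ i)
  · intro t ht ih2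
    have h1 := integral_add_compl ht ih
    have h2 : ∫ s, h s ∂(Measure.pi Q) = 0 := by
      have := box (fun _ => Set.univ) fun _ => MeasurableSet.univ
      rwa [Set.pi_univ, Measure.restrict_univ] at this
    rw [ih2, h2, zero_add] at h1
    exact h1
  · intro f hd hm ih2
    rw [integral_iUnion hm hd ih.integrableOn]
    simp only [ih2, tsum_zero]

/-- an integral of a product over which one factor is centred -/
lemma pu_zero {w : ∀ i, S i → ℝ} {k : ι} (hk : ∫ s, w k s ∂(Q k) = 0) :
    ∫ s, pu w s ∂(Measure.pi Q) = 0 := by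
  rw [pu_int]
  exact Finset.prod_eq_zero (Finset.mem_univ k) hk

/-- **Waves on products of weakly mixing systems split.** -/
theorem splitting (A : ∀ i, Act (Q i) (T i)) (W : ∀ i, WM (Q i) (T i)) {f : (∀ i, S i) → ℝ}
    (mf : Measurable f) (lf : MemLp f 2 (Measure.pi Q)) {ρ : Measure V} [IsFiniteMeasure ρ]
    (hρ : ∀ᵐ ξ ∂ρ, ‖ξ‖ = 1) (hf : Spm (Measure.pi Q) (pT T) f ρ)
    (f0 : ∫ s, f s ∂(Measure.pi Q) = 0) :
    ∃ g : ∀ i, S i → ℝ, (∀ i, Measurable (g i)) ∧ (∀ i, MemLp (g i) 2 (Q i)) ∧
      (∀ i, ∫ s, g i s ∂(Q i) = 0) ∧ ∀ᵐ s ∂(Measure.pi Q), f s = ∑ i, g i (s i) := by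
  have ev : ∀ i, MeasurePreserving (fun s : ∀ i, S i => s i) (Measure.pi Q) (Q i) := fun i =>
    measurePreserving_eval Q i
  obtain ⟨E, hE⟩ : ∃ E : ∀ i, Lp ℝ 2 (Q i) →ₗᵢ[ℝ] Lp ℝ 2 (Measure.pi Q), ∀ i a,
      (E i a : (∀ i, S i) → ℝ) =ᵐ[Measure.pi Q] fun s => a (s i) :=
    ⟨fun i => Lp.compMeasurePreservingₗᵢ ℝ _ (ev i), fun i a =>
      Lp.coeFn_compMeasurePreserving a (ev i)⟩
  obtain ⟨G, hG⟩ : ∃ G : ∀ i, Lp ℝ 2 (Q i), ∀ i, G i =
      ContinuousLinearMap.adjoint (E i).toContinuousLinearMap (lf.toLp f) := ⟨_, fun _ => rfl⟩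
  have iG : ∀ i (a : Lp ℝ 2 (Q i)), ∫ s, G i s * a s ∂(Q i) =
      ∫ s, f s * a (s i) ∂(Measure.pi Q) := by
    intro i a
    have h1 : (inner ℝ (G i) a : ℝ) = inner ℝ (lf.toLp f) (E i a) := by
      rw [hG]
      exact ContinuousLinearMap.adjoint_inner_left _ _ _
    rw [L2.inner_def, L2.inner_def] at h1
    have h2 : ∫ s, inner ℝ ((lf.toLp f : (∀ i, S i) → ℝ) s) (E i a s) ∂(Measure.pi Q) =
        ∫ s, f s * a (s i) ∂(Measure.pi Q) := by
      refine integral_congr_ae ?_
      filter_upwards [lf.coeFn_toLp, hE i a] with s e1 e2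
      rw [e1, e2]
      simp [mul_comm]
    rw [← h2, ← h1]
    congr 1
    funext s
    simp [mul_comm]
  have mG : ∀ i, Measurable fun s => G i s := fun i => (Lp.stronglyMeasurable (G i)).measurable
  have lG : ∀ i, MemLp (fun s => G i s) 2 (Q i) := fun i => Lp.memLp (G i)
  have iGu : ∀ i (u : S i → ℝ), MemLp u 2 (Q i) → ∫ s, G i s * u s ∂(Q i) =
      ∫ s, f s * u (s i) ∂(Measure.pi Q) := by
    intro i u lu
    have h1 := iG i (lu.toLp u)
    have h2 : ∫ s, G i s * (lu.toLp u : S i → ℝ) s ∂(Q i) = ∫ s, G i s * u s ∂(Q i) := by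
      refine integral_congr_ae ?_
      filter_upwards [lu.coeFn_toLp] with s e1
      rw [e1]
    have h3 : ∫ s, f s * (lu.toLp u : S i → ℝ) (s i) ∂(Measure.pi Q) =
        ∫ s, f s * u (s i) ∂(Measure.pi Q) := by
      refine integral_congr_ae ?_
      have := (ev i).quasiMeasurePreserving.ae_eq_comp lu.coeFn_toLp
      filter_upwards [this] with s e1
      have e2 : (lu.toLp u : S i → ℝ) (s i) = u (s i) := e1
      rw [e2]
    rw [← h2, h1, h3]
  have G0 : ∀ i, ∫ s, G i s ∂(Q i) = 0 := by
    intro i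
    have h1 := iGu i (fun _ => 1) (memLp_const _)
    simp only [mul_one] at h1
    rw [h1, f0]
  have lGi : ∀ i, MemLp (fun s : ∀ i, S i => G i (s i)) 2 (Measure.pi Q) := fun i =>
    (lG i).comp_measurePreserving (ev i)
  refine ⟨fun i s => G i s, mG, lG, G0, ?_⟩
  have lh : MemLp (fun s => f s - ∑ i, G i (s i)) 2 (Measure.pi Q) :=
    lf.sub (memLp_finsetSum _ fun i _ => lGi i)
  have key : (fun s => f s - ∑ i, G i (s i)) =ᵐ[Measure.pi Q] 0 := by
    refine complete (lh.integrable (by norm_num)) fun J v mv lv v0 => ?_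
    have lc := pu_mem (cut_meas J mv) (cut_mem J lv)
    have i1 : Integrable (fun s => f s * pu (cut J v) s) (Measure.pi Q) := lf.integrable_mul lc
    have i2 : ∀ i, Integrable (fun s => G i (s i) * pu (cut J v) s) (Measure.pi Q) := fun i =>
      (lGi i).integrable_mul lc
    have e1 : ∀ s : ∀ i, S i, (f s - ∑ i, G i (s i)) * pu (cut J v) s =
        f s * pu (cut J v) s - ∑ i, G i (s i) * pu (cut J v) s := by
      intro s
      rw [sub_mul, Finset.sum_mul]
    simp only [e1]
    rw [integral_sub i1 (integrable_finsetSum _ fun i _ => i2 i),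
      integral_finsetSum _ fun i _ => i2 i, sub_eq_zero]
    -- the integrals of the summands
    have z : ∀ i k, k ∈ J → k ≠ i → ∫ s, G i (s i) * pu (cut J v) s ∂(Measure.pi Q) = 0 := by
      intro i k hk hki
      have e2 : ∀ s : ∀ i, S i, G i (s i) * pu (cut J v) s =
          pu (fun l t => (if l = i then G l t else 1) * cut J v l t) s := by
        intro s
        rw [← pu_mul]
        congr 1
        unfold pu
        rw [Finset.prod_ite_eq' Finset.univ i fun l => G l (s l), if_pos (Finset.mem_univ i)]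
      simp only [e2]
      refine pu_zero (k := k) ?_
      simp only [if_neg hki, one_mul]
      unfold cut
      simp only [if_pos hk]
      exact v0 k
    by_cases h2 : ∃ j ∈ J, ∃ k ∈ J, j ≠ k
    · obtain ⟨j, hj, k, hk, hjk⟩ := h2
      rw [orthJ A W mf lf hρ hf mv lv v0 hj hk hjk]
      symm
      refine Finset.sum_eq_zero fun i _ => ?_
      by_cases hi : j = i
      · exact z i k hk fun h => hjk (hi.trans h.symm)
      · exact z i j hj hi
    · push Not at h2
      rcases J.eq_empty_or_nonempty with hJ | ⟨j, hj⟩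
      · subst hJ
        simp only [pu_cut, Finset.prod_empty, mul_one]
        rw [f0]
        symm
        refine Finset.sum_eq_zero fun i _ => ?_
        have h3 := integral_map (μ := Measure.pi Q) (ev i).measurable.aemeasurable
          (f := fun s => G i s) (mG i).aestronglyMeasurable
        rw [(ev i).map_eq, G0 i] at h3
        exact h3.symm
      · have hJ : J = {j} := by
          ext k
          rw [Finset.mem_singleton]
          exact ⟨fun hk => (h2 j hj k hk).symm, fun hk => hk ▸ hj⟩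
        have e3 : ∀ s : ∀ i, S i, pu (cut J v) s = v j (s j) := by
          intro s
          rw [pu_cut, hJ, Finset.prod_singleton]
        rw [Finset.sum_eq_single j (fun i _ hi => z i j hj fun h => hi h.symm)
          fun h => absurd (Finset.mem_univ j) h]
        simp only [e3]
        rw [← iGu j (v j) (lv j)]
        have h3 := integral_map (μ := Measure.pi Q) (ev j).measurable.aemeasurable
          (f := fun s => G j s * v j s) ((mG j).mul (mv j)).aestronglyMeasurable
        rw [(ev j).map_eq] at h3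
        exact h3
  filter_upwards [key] with s hs
  have : f s - ∑ i, G i (s i) = 0 := hs
  linarith

/-- the spectral measure of a sum -/
theorem split_spec (A : ∀ i, Act (Q i) (T i)) {f : (∀ i, S i) → ℝ} {ρ : Measure V}
    [IsFiniteMeasure ρ] (hf : Spm (Measure.pi Q) (pT T) f ρ) {g : ∀ i, S i → ℝ}
    (mg : ∀ i, Measurable (g i)) (lg : ∀ i, MemLp (g i) 2 (Q i))
    (g0 : ∀ i, ∫ s, g i s ∂(Q i) = 0) (hg : ∀ᵐ s ∂(Measure.pi Q), f s = ∑ i, g i (s i))
    {σ : ι → Measure V} (fs : ∀ i, IsFiniteMeasure (σ i))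
    (hσ : ∀ i, Spm (Q i) (T i) (g i) (σ i)) : ρ = ∑ i, σ i := by
  have ev : ∀ i, MeasurePreserving (fun s : ∀ i, S i => s i) (Measure.pi Q) (Q i) := fun i =>
    measurePreserving_eval Q i
  refine Measure.ext_of_charFun ?_
  funext x
  have lgi : ∀ i, MemLp (fun s : ∀ i, S i => g i (s i)) 2 (Measure.pi Q) := fun i =>
    (lg i).comp_measurePreserving (ev i)
  have lgx : ∀ i, MemLp (fun s : ∀ i, S i => g i (T i x (s i))) 2 (Measure.pi Q) := fun i =>
    ((lg i).comp_measurePreserving ((A i).mp x)).comp_measurePreserving (ev i)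
  have e1 : ∫ s, f s * f (pT T x s) ∂(Measure.pi Q) =
      ∑ i, ∑ j, ∫ s, g i (s i) * g j (T j x (s j)) ∂(Measure.pi Q) := by
    have h1 : ∫ s, f s * f (pT T x s) ∂(Measure.pi Q) =
        ∫ s, ∑ i, ∑ j, g i (s i) * g j (T j x (s j)) ∂(Measure.pi Q) := by
      refine integral_congr_ae ?_
      filter_upwards [hg, ((pT_act A).mp x).quasiMeasurePreserving.ae hg] with s h1 h2
      rw [h1, h2, Finset.sum_mul_sum]
      rfl
    have ii : ∀ i j, Integrable (fun s : ∀ i, S i => g i (s i) * g j (T j x (s j)))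
        (Measure.pi Q) := fun i j => (lgi i).integrable_mul (lgx j)
    rw [h1, integral_finsetSum _ fun i _ => integrable_finsetSum _ fun j _ => ii i j]
    refine Finset.sum_congr rfl fun i _ => ?_
    rw [integral_finsetSum _ fun j _ => ii i j]
  have e2 : ∀ i j, i ≠ j → ∫ s, g i (s i) * g j (T j x (s j)) ∂(Measure.pi Q) = 0 := by
    intro i j hij
    have e3 : ∀ s : ∀ i, S i, g i (s i) * g j (T j x (s j)) =
        pu (fun l t => (if l = i then g l t else 1) * (if l = j then g l (T l x t) else 1)) s := by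
      intro s
      rw [← pu_mul]
      unfold pu
      rw [Finset.prod_ite_eq' Finset.univ i fun l => g l (s l), if_pos (Finset.mem_univ i),
        Finset.prod_ite_eq' Finset.univ j fun l => g l (T l x (s l)), if_pos (Finset.mem_univ j)]
    simp only [e3]
    refine pu_zero (k := i) ?_
    simp only [if_neg hij, if_true, mul_one]
    exact g0 i
  have e4 : ∀ i, ∫ s, g i (s i) * g i (T i x (s i)) ∂(Measure.pi Q) =
      ∫ s, g i s * g i (T i x s) ∂(Q i) := by
    intro i
    have h3 := integral_map (μ := Measure.pi Q) (ev i).measurable.aemeasurable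
      (f := fun s => g i s * g i (T i x s))
      ((mg i).mul ((mg i).comp ((A i).mp x).measurable)).aestronglyMeasurable
    rw [(ev i).map_eq] at h3
    exact h3.symm
  have e5 : charFun (∑ i, σ i) x = ∑ i, charFun (σ i) x := by
    simp only [charFun_apply]
    refine integral_finsetSum_measure fun i _ => ?_
    have := fs i
    exact (integrable_const (1 : ℝ)).mono' (by fun_prop) (ae_of_all _ fun ξ => by
      rw [Complex.norm_exp_ofReal_mul_I])
  rw [e5, hf x, e1]
  push_cast
  refine Finset.sum_congr rfl fun i _ => ?_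
  rw [Finset.sum_eq_single i (fun j _ hj => by rw [e2 i j hj.symm, Complex.ofReal_zero])
    fun h => absurd (Finset.mem_univ i) h, e4, hσ i x]

end

end Pool.Agent.KS6_61.PD
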